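import Pool.Agent.Q240.Cay.Mixed

/-!
Rapaport Strasser's question: generating sets invariant under conjugation by an abelian normal
subgroup.
-/

namespace Pool.Agent.Results.MP_688fd0_co.AbelianNormalConjugation

open scoped commutatorElement

/-- `l = (a_1, ..., a_n)` is a listing sequence of elements of `A`: `n = |G|`, all terms are in
`A`, and every element of `G` is the partial product `a_1 ⋯ a_k` for exactly one `1 ≤ k ≤ n`. -/
def IsListing {G : Type*} [Group G] (A : Set G) (l : List G) : Prop :=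
  l.length = Nat.card G ∧ (∀ a ∈ l, a ∈ A) ∧
    ∀ g : G, ∃! k : ℕ, 1 ≤ k ∧ k ≤ l.length ∧ (l.take k).prod = g

/-- Let `M` be an abelian normal subgroup of a finite group `G` and `A` a nonempty symmetric
generating set that is closed under conjugation by `M`, and closed under conjugation by `G`
modulo the commutator subgroup `[G, M]` (which is automatic if `[G, M] = [G, G]`). Then some
listing sequence of elements of `A` has total product `1`. -/
theorem result (G : Type*) [Group G] [Finite G] (M : Subgroup G) (hMn : M.Normal)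
    (hM : ∀ x ∈ M, ∀ y ∈ M, x * y = y * x) (A : Set G) (hne : A.Nonempty)
    (hs : ∀ a ∈ A, a⁻¹ ∈ A) (hgen : Subgroup.closure A = ⊤)
    (hMA : ∀ m ∈ M, ∀ a ∈ A, m * a * m⁻¹ ∈ A)
    (hGA : ∀ g : G, ∀ a ∈ A, ∃ a' ∈ A, (g * a * g⁻¹)⁻¹ * a' ∈ ⁅(⊤ : Subgroup G), M⁆) :
    ∃ l : List G, IsListing A l ∧ l.prod = 1 := by
  have hRn : (⁅(⊤ : Subgroup G), M⁆).Normal := inferInstance
  have hHC : Pool.Agent.Q240.Cay.HC (G ⧸ ⁅(⊤ : Subgroup G), M⁆)
      ((QuotientGroup.mk : G → G ⧸ ⁅(⊤ : Subgroup G), M⁆) '' A) := by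
    apply Pool.Agent.Q240.Cay.hc_all
    · exact hne.image _
    · rintro _ ⟨a, ha, rfl⟩
      exact ⟨a⁻¹, hs a ha, rfl⟩
    · have h1 : (Subgroup.closure A).map (QuotientGroup.mk' ⁅(⊤ : Subgroup G), M⁆) = ⊤ := by
        rw [hgen, ← MonoidHom.range_eq_map, MonoidHom.range_eq_top]
        exact QuotientGroup.mk'_surjective _
      rw [MonoidHom.map_closure] at h1
      exact h1
    · intro g a ha
      obtain ⟨a, ha, rfl⟩ := ha
      obtain ⟨g, rfl⟩ := QuotientGroup.mk_surjective g
      obtain ⟨a', ha', h⟩ := hGA g a ha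
      exact ⟨a', ha', (QuotientGroup.eq.mpr h).symm⟩
  obtain ⟨l, hl, h1⟩ := Pool.Agent.Q240.Cay.listing_of_HC A
    (Pool.Agent.Q240.Cay.lift M hMn hM A
      (fun a ha m hm => by simpa using hMA m⁻¹ (M.inv_mem hm) a ha) _ rfl hHC)
  exact ⟨l, ⟨hl.length, hl.mem, hl.lists⟩, h1⟩

end Pool.Agent.Results.MP_688fd0_co.AbelianNormalConjugation
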