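import Pool.Agent.Q128.HamLift

/-!
# MP_688fd0_co: elements of `A` whose whole conjugacy class lies in `A`

Let `A` be a nonempty symmetric generating set of a finite group `G` and let `N` be the (normal)
subgroup generated by the elements of `A` whose whole conjugacy class lies in `A`; suppose that
some such element is not the identity.  Let `f : G → Q` be a surjective homomorphism with kernel
`N` (for instance the quotient map `G → G / N`).  If `|N| ≥ 3`, then `Cay(G, A)` has a Hamiltonian
cycle; if the image of `A` in `Q` has a listing sequence, then again `A` has a listing sequence
with product `1`.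
-/

namespace Pool.Agent.Results.MP_688fd0_co.FullClassPart

open Pool.Agent.Q128.Rapaport

theorem result (G Q : Type*) [Group G] [Finite G] [Group Q] (A : Set G) (hA : SymmGen A)
    (hne : ∃ z ∈ fullClass A, z ≠ 1)
    (f : G →* Q) (hf : Function.Surjective f) (hker : f.ker = Subgroup.closure (fullClass A))
    (h : 3 ≤ Nat.card (Subgroup.closure (fullClass A)) ∨ ∃ l : List Q, IsListing (f '' A) l) :
    HasClosedListing A :=
  Pool.Agent.Q128.Ham.closed_of_fullClass hA hne f hf hker h

end Pool.Agent.Results.MP_688fd0_co.FullClassPart
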