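import Pool.Agent.Q128.HamPrism

/-!
# MP_688fd0_co: elements of `A` that normalise `A`

Let `A` be a nonempty symmetric generating set of a finite group `G`, and let `z ≠ 1` be an
element of `A` with `z A z⁻¹ = A`.  If `A` contains a second such element, then `Cay(G, A)` has a
Hamiltonian cycle.  If `z` is an involution outside the subgroup generated by `A \ {z}` and
`A \ {z}` has a listing sequence in that subgroup, then the same conclusion holds.
-/

namespace Pool.Agent.Results.MP_688fd0_co.NormalisingGenerators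

open Pool.Agent.Q128.Rapaport

theorem result (G : Type*) [Group G] [Finite G] (A : Set G) (hA : SymmGen A) (z : G)
    (hz : z ∈ normalising A) (hz1 : z ≠ 1)
    (h : (∃ w ∈ normalising A, w ≠ 1 ∧ w ≠ z) ∨
      (z ∉ Subgroup.closure (A \ {z}) ∧ ∃ l : List (Subgroup.closure (A \ {z})),
        IsListing ((fun x : Subgroup.closure (A \ {z}) => (x : G)) ⁻¹' (A \ {z})) l)) :
    HasClosedListing A := by
  by_cases hw : ∃ w ∈ normalising A, w ≠ 1 ∧ w ≠ z
  · obtain ⟨w, hw, hw1, hwz⟩ := hw
    obtain ⟨L, hL⟩ := Pool.Agent.Q128.Ham.cyc_of_normalising hA.inv_mem hA.closure_eq hw hz hw1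
      hz1 hwz
    exact Pool.Agent.Q128.Ham.closedListing_of_cyc hL
  · obtain ⟨hzH, hl⟩ := h.resolve_left hw
    have hinv : z⁻¹ ∈ normalising A := by
      refine ⟨hA.inv_mem z hz.1, ?_⟩
      intro c
      rw [hz.2 (z⁻¹ * c * z⁻¹⁻¹)]
      have e : z * (z⁻¹ * c * z⁻¹⁻¹) * z⁻¹ = c := by group
      rw [e]
    have hz2 : z⁻¹ = z := by
      by_contra hne
      exact hw ⟨z⁻¹, hinv, by simpa using hz1, hne⟩
    have hzz : z * z = 1 := by
      nth_rewrite 1 [← hz2]
      exact inv_mul_cancel z
    exact Pool.Agent.Q128.Ham.cyc_prism hA hz hzz hzH hl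

end Pool.Agent.Results.MP_688fd0_co.NormalisingGenerators
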