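import Pool.Agent.Q128.HamMain

/-!
# MP_688fd0_co: lifting Hamiltonian paths from a subgroup

A criterion for `Cay(G, A)` to be Hamiltonian in terms of Hamiltonian paths in the Cayley graph of
a subgroup `K` of order at least three; nothing is assumed about the coset graph of `K`.
-/

namespace Pool.Agent.Results.MP_688fd0_co.SubgroupLift

open Pool.Agent.Q128.Rapaport

theorem result (G : Type*) [Group G] [Finite G] (A S D : Set G) (K : Subgroup G)
    (hA : SymmGen A) (hSA : S ⊆ A) (hSK : S ⊆ K) (hK : 3 ≤ Nat.card K)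
    (hpath : ∀ d ∈ D, HamPathTo S K d) (hD : ∃ d ∈ D, d ∈ A)
    (h : ∀ k ∈ K, ∀ a ∈ A, a ∉ K → ∀ s ∈ S, ∃ c ∈ A, ∃ d ∈ D, (∃ k' ∈ K, c = k * a * k') ∧
      s⁻¹ * c * d ∈ A) :
    HasClosedListing A := by
  obtain ⟨L, hL⟩ := Pool.Agent.Q128.Ham.cyc_of_criterion hA.inv_mem hA.closure_eq
    (fun d hd => Pool.Agent.Q128.Ham.hpath_of_hamPathTo hSK (hpath d hd)) hD hSA hK h
  exact Pool.Agent.Q128.Ham.closedListing_of_cyc hL

end Pool.Agent.Results.MP_688fd0_co.SubgroupLift
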